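import Pool.Agent.H37.CSZ.Stmts
import Pool.Agent.H52.CNU.UNL

/-!
# Row `ZZL` of the board `csz`: the Laurent series `x`, `z`, `w`
-/

set_option autoImplicit false

namespace Pool.CND

namespace ZZLaux

open PowerSeries UNLaux

/-- the identities for `a = z + x ^ (f + 1)` and `w = x z + x ^ (f + 2) + z ^ f` -/
theorem alg {R : Type} [CommRing R] [CharP R 2] (n q f : ℕ) (x z d : R) (hf : f = 2 ^ (n + 1))
    (hq : q = 2 ^ (2 * n + 1)) (hx : x ^ q + x = d) (hz : z ^ q + z = x ^ f * d) :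
    (z + x ^ (f + 1)) ^ q + (z + x ^ (f + 1)) = x ^ q * d ^ f ∧
    (x * z + x ^ (f + 2) + z ^ f) ^ q + (x * z + x ^ (f + 2) + z ^ f) =
      d * (z + x ^ (f + 1)) := by
  have : Fact (Nat.Prime 2) := ⟨Nat.prime_two⟩
  have h2 : (2 : R) = 0 := CharTwo.two_eq_zero
  have hadd : ∀ a b : R, (a + b) ^ q = a ^ q + b ^ q := by
    intro a b
    rw [hq]
    exact add_pow_char_pow a b 2 _
  have hadf : ∀ a b : R, (a + b) ^ f = a ^ f + b ^ f := by
    intro a b
    rw [hf]
    exact add_pow_char_pow a b 2 _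
  have hxq : x ^ q = x + d := by
    linear_combination hx - x * h2
  have hzq : z ^ q = z + x ^ f * d := by
    linear_combination hz - z * h2
  have hff : f * f = 2 * q := by
    rw [hf, hq, ← pow_add, mul_comm 2, ← pow_succ]
    congr 1
    omega
  have hxfq : (x ^ f) ^ q = x ^ f + d ^ f := by
    rw [← pow_mul, mul_comm f q, pow_mul, hxq, hadf]
  have hx1 : (x ^ (f + 1)) ^ q = (x ^ f + d ^ f) * (x + d) := by
    rw [pow_succ, mul_pow, hxfq, hxq]
  have hx2 : (x ^ (f + 2)) ^ q = (x ^ f + d ^ f) * (x + d) ^ 2 := by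
    rw [pow_add, mul_pow, hxfq, ← pow_mul, mul_comm 2 q, pow_mul, hxq]
  have hxff : (x ^ f) ^ f = (x + d) ^ 2 := by
    rw [← pow_mul, hff, mul_comm 2 q, pow_mul, hxq]
  have hzf : (z ^ f) ^ q = z ^ f + (x + d) ^ 2 * d ^ f := by
    rw [← pow_mul, mul_comm f q, pow_mul, hzq, hadf, mul_pow, hxff]
  constructor
  · rw [hadd, hx1, hzq, hxq, pow_succ x f]
    linear_combination (z + x ^ f * x + x ^ f * d) * h2
  · rw [hadd, hadd, mul_pow, hx2, hzf, hxq, hzq, pow_succ x f, pow_add x f 2]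
    linear_combination (x * z + x ^ f * x * d + x ^ f * d ^ 2 + x ^ f * x ^ 2 +
      d ^ f * (x + d) ^ 2 + z ^ f) * h2

variable {k : Type} [Field k]

/-- the equation `b ^ q + b = a` -/
theorem asol (q : ℕ) (hq : 2 ≤ q) (a : PowerSeries k) (ha : constantCoeff a = 0) :
    ∃ b : PowerSeries k, constantCoeff b = 0 ∧ b ^ q + b = a := by
  have := adic (k := k)
  have hH : HenselianRing (PowerSeries k) (Ideal.span {(X : PowerSeries k)}) := inferInstance
  have hmon : (Polynomial.X ^ q + (Polynomial.X - Polynomial.C a) :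
      Polynomial (PowerSeries k)).Monic := by
    apply Polynomial.monic_X_pow_add
    rw [Polynomial.degree_X_sub_C]
    exact_mod_cast (by omega : 1 < q)
  obtain ⟨b, hb, hb1⟩ := hH.is_henselian (Polynomial.X ^ q + (Polynomial.X - Polynomial.C a))
    hmon 0 (by
      rw [Ideal.mem_span_singleton, X_dvd_iff]
      simp only [Polynomial.eval_add, Polynomial.eval_sub, Polynomial.eval_pow, Polynomial.eval_X,
        Polynomial.eval_C]
      rw [zero_pow (by omega), zero_add, zero_sub, map_neg, ha, neg_zero]) (by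
      apply IsUnit.map
      rw [Polynomial.derivative_add, Polynomial.derivative_X_pow, Polynomial.derivative_sub,
        Polynomial.derivative_X, Polynomial.derivative_C, sub_zero]
      simp only [Polynomial.eval_add, Polynomial.eval_mul, Polynomial.eval_C, Polynomial.eval_pow,
        Polynomial.eval_X, Polynomial.eval_one]
      rw [zero_pow (by omega), mul_zero, zero_add]
      exact isUnit_one)
  refine ⟨b, ?_, ?_⟩
  · rw [Ideal.mem_span_singleton, X_dvd_iff, sub_zero] at hb1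
    exact hb1
  · have h : Polynomial.eval b (Polynomial.X ^ q + (Polynomial.X - Polynomial.C a)) = 0 := hb
    simp only [Polynomial.eval_add, Polynomial.eval_sub, Polynomial.eval_pow, Polynomial.eval_X,
        Polynomial.eval_C] at h
    linear_combination h

/-- the order of a solution -/
theorem aord (q : ℕ) (hq : 2 ≤ q) (a b : PowerSeries k) (hb : constantCoeff b = 0)
    (h : b ^ q + b = a) (ha : L a ≠ 0) : L b ≠ 0 ∧ (L b).order = (L a).order := by
  have hbb : b * (1 + b ^ (q - 1)) = a := by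
    obtain ⟨r, rfl⟩ : ∃ r, q = r + 1 := ⟨q - 1, by omega⟩
    rw [← h, Nat.add_sub_cancel]
    ring
  have hc : constantCoeff (1 + b ^ (q - 1)) = 1 := by
    rw [map_add, map_one, map_pow, hb, zero_pow (by omega), add_zero]
  have hL : L b * L (1 + b ^ (q - 1)) = L a := by
    rw [L, L, L, ← map_mul, hbb]
  have hb0 : L b ≠ 0 := by
    intro h0
    rw [h0, zero_mul] at hL
    exact ha hL.symm
  refine ⟨hb0, ?_⟩
  rw [← hL, HahnSeries.order_mul hb0 (L_ne _ hc), L_order _ hc, add_zero]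

end ZZLaux

open UNLaux ZZLaux in
theorem zzl_thm : S_ZZL := by
  intro n q f e k _ hchar hn hf hq he
  have : CharP (PowerSeries k) 2 := charP_of_injective_ringHom
    (PowerSeries.C_injective (R := k)) 2
  have hff : f * f = 2 * q := by
    rw [hf, hq, ← pow_add, mul_comm 2, ← pow_succ]
    congr 1
    omega
  have hf4 : 4 ≤ f := by
    rw [hf]
    calc 4 = 2 ^ 2 := by norm_num
      _ ≤ 2 ^ (n + 1) := Nat.pow_le_pow_right (by norm_num) (by omega)
  have hfq : f ≤ q := by nlinarith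
  have hq2 : 2 ≤ q := by omega
  have he0 : 0 < e := by omega
  have cX : PowerSeries.constantCoeff ((PowerSeries.X : PowerSeries k) ^ e) = 0 := by
    rw [map_pow, PowerSeries.constantCoeff_X, zero_pow (by omega)]
  obtain ⟨x, hx0, hx⟩ := asol q hq2 ((PowerSeries.X : PowerSeries k) ^ e) cX
  obtain ⟨z, hz0, hz⟩ := asol q hq2 (x ^ f * (PowerSeries.X : PowerSeries k) ^ e) (by
    rw [map_mul, cX, mul_zero])
  obtain ⟨h1, h2⟩ := alg n q f x z _ hf hq hx hz
  have hTe : L ((PowerSeries.X : PowerSeries k) ^ e) = T (e : ℤ) := L_X_pow e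
  have oT : (T (e : ℤ) : LaurentSeries k).order = e := HahnSeries.order_single one_ne_zero
  obtain ⟨nx, ox⟩ := aord q hq2 _ x hx0 hx (by rw [hTe]; exact T_ne _)
  rw [hTe, oT] at ox
  have e1 : L (x ^ f * (PowerSeries.X : PowerSeries k) ^ e) = L x ^ f * T (e : ℤ) := by
    rw [← hTe, L, L, L, map_mul, map_pow]
  obtain ⟨nz, oz⟩ := aord q hq2 _ z hz0 hz (by
    rw [e1]; exact mul_ne_zero (pow_ne_zero _ nx) (T_ne _))
  rw [e1, HahnSeries.order_mul (pow_ne_zero _ nx) (T_ne _), HahnSeries.order_pow, ox, oT] at oz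
  have e2 : L (x ^ q * ((PowerSeries.X : PowerSeries k) ^ e) ^ f) = L x ^ q * T (e : ℤ) ^ f := by
    rw [← hTe, L, L, L, map_mul, map_pow, map_pow]
  have hca : PowerSeries.constantCoeff (z + x ^ (f + 1)) = 0 := by
    rw [map_add, map_pow, hz0, hx0, zero_pow (by omega), add_zero]
  obtain ⟨na, oa⟩ := aord q hq2 _ _ hca h1 (by
    rw [e2]; exact mul_ne_zero (pow_ne_zero _ nx) (pow_ne_zero _ (T_ne _)))
  rw [e2, HahnSeries.order_mul (pow_ne_zero _ nx) (pow_ne_zero _ (T_ne _)), HahnSeries.order_pow,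
    HahnSeries.order_pow, ox, oT] at oa
  have e3 : L ((PowerSeries.X : PowerSeries k) ^ e * (z + x ^ (f + 1))) =
      T (e : ℤ) * L (z + x ^ (f + 1)) := by
    rw [← hTe, L, L, L, map_mul]
  have hcw : PowerSeries.constantCoeff (x * z + x ^ (f + 2) + z ^ f) = 0 := by
    rw [map_add, map_add, map_mul, map_pow, map_pow, hz0, hx0, zero_pow (by omega),
      zero_pow (by omega), add_zero, add_zero, mul_zero]
  obtain ⟨nw, ow⟩ := aord q hq2 _ _ hcw h2 (by
    rw [e3]; exact mul_ne_zero (T_ne _) na)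
  rw [e3, HahnSeries.order_mul (T_ne _) na, oa, oT] at ow
  have hTp : (T (1 : ℤ) : LaurentSeries k) ^ e = T (e : ℤ) := by
    rw [T_pow, mul_one]
  refine ⟨L x, L z, L (x * z + x ^ (f + 2) + z ^ f), T 1, T_ne _, nx, nz, nw,
    HahnSeries.order_single one_ne_zero, ox, ?_, ?_, ?_, ?_, ?_⟩
  · rw [oz, nsmul_eq_mul]
    ring
  · rw [ow, nsmul_eq_mul, nsmul_eq_mul]
    have he' : (e : ℤ) = q + 1 - f := by
      have : ((e + f : ℕ) : ℤ) = ((q + 1 : ℕ) : ℤ) := by rw [he]
      push_cast at this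
      linarith
    have hff' : (f : ℤ) * f = 2 * q := by exact_mod_cast hff
    push_cast
    rw [he']
    linear_combination (-1 : ℤ) * hff'
  · rw [hTp, ← hTe, L, L, ← map_pow, ← map_add, hx]
  · rw [hTp, ← e1, L, L, ← map_pow, ← map_add, hz]
  · rw [L, L, L, map_add, map_add, map_mul, map_pow, map_pow]

end Pool.CND
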